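import Pool.Agent.W2helper41.B.Lw
import Pool.Agent.W2helper41.Y.Exa
import Pool.Agent.Y682.YQ.Inr

/-!
The vectors with the condition: all the products are regular.
-/

set_option autoImplicit false
set_option linter.unusedSectionVars false
set_option linter.unusedVariables false

open scoped Classical

namespace Pool.Agent.W2helper41.B

open Finset
open Pool.Agent.W2helper41.X (Spl Ine mat ns)
open Pool.Agent.W2helper41.Z (Fam Bd sps ins)

variable {t : ℕ} {r : Fin (t + 2) → ℕ} {A : ℕ → Prop}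

/-- a vector of the family comes from a tuple of primes -/
theorem exists_tup {D : Fin (t + 2) → ℕ} (hD : Fms A r D) :
    ∃ p : Ix r → ℕ, (∀ i, Kd A r i (p i)) ∧ Function.Injective p ∧ DD p = D := by
  obtain ⟨s₀, h₀⟩ := exists_sp hD (Or.inl rfl : (0 : Fin (t + 2)) = 0 ∨ (0 : Fin (t + 2)) = 1)
  obtain ⟨s₁, h₁⟩ := exists_sp hD (Or.inr rfl : (1 : Fin (t + 2)) = 0 ∨ (1 : Fin (t + 2)) = 1)
  have hc : ∀ i, Nonempty (Fin (r i) ≃ {q : ℕ // q ∈ ins (D i)}) := by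
    intro i
    apply Fintype.card_eq.1
    rw [Fintype.card_fin, Fintype.card_coe]
    exact (hD.1 i).2.2.2.symm
  let e : (i : Fin (t + 2)) → Fin (r i) ≃ {q : ℕ // q ∈ ins (D i)} := fun i => Classical.choice (hc i)
  exact ⟨tup D s₀ s₁ e, tup_kd hD h₀ h₁ e, tup_inj hD h₀ h₁ e, tup_DD hD h₀ h₁ e⟩

/-- the sets of the primes of a product -/
theorem prods {D : Fin (t + 2) → ℕ} (hD : Fms A r D) (B : Finset (Fin (t + 2))) :
    (∀ q ∈ ins (∏ i ∈ B, D i), Ine q) ∧ (∀ p ∈ sps (∏ i ∈ B, D i), Spl p) ∧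
    (sps (∏ i ∈ B, D i)).card ≤ 2 ∧
    ∏ i ∈ B, D i = (∏ q ∈ ins (∏ i ∈ B, D i), q) * ∏ p ∈ sps (∏ i ∈ B, D i), p := by
  obtain ⟨p, hp, hinj, rfl⟩ := exists_tup hD
  rw [sps_bi hp hinj, ins_bi hp hinj]
  refine ⟨bi_TT hp B, bi_PP hp B, ?_, prod_bi hinj B⟩
  by_cases h0 : (0 : Fin (t + 2)) ∈ B <;> by_cases h1 : (1 : Fin (t + 2)) ∈ B
  · rw [bi_both p h0 h1]
    exact card_le_two
  · rw [bi_zero p h0 h1, card_singleton]
    norm_num
  · rw [bi_one p h0 h1, card_singleton]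
    norm_num
  · rw [bi_none p h0 h1, card_empty]
    norm_num

theorem gv_reg {D : Fin (t + 2) → ℕ} (hD : Fms A r D) (hG : Gv D) (B : Finset (Fin (t + 2))) :
    Y.Reg (∏ i ∈ B, D i) := by
  obtain ⟨h1, h2, h3, h4⟩ := prods hD B
  exact ⟨_, _, h1, h2, h3, h4, hG B⟩

theorem fms_inj {D : Fin (t + 2) → ℕ} (hr : ∀ i, 0 < r i) (hD : Fms A r D) :
    Function.Injective D := by
  intro i j hij
  by_contra hne
  have h1 := hD.2 hne
  simp only at h1
  rw [← hij, Nat.coprime_self] at h1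
  have h2 := (hD.1 i).2.2.2
  rw [h1] at h2
  have h3 := hr i
  rw [← h2] at h3
  unfold ins at h3
  rw [Nat.primeFactors_one] at h3
  exact absurd h3 (by decide)

/-- all the products of the elements of the set are regular -/
theorem gv_adm {D : Fin (t + 2) → ℕ} (hr : ∀ i, 0 < r i) (hD : Fms A r D) (hG : Gv D) :
    ∀ C ⊆ univ.image D, ∃ d g : ℕ, Y.Reg d ∧ 0 < g ∧ ∏ n ∈ C, n = d * g ^ 2 := by
  intro C hC
  have hinj := fms_inj hr hD
  have e : C = (univ.filter fun i => D i ∈ C).image D := by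
    ext n
    rw [mem_image]
    constructor
    · intro hn
      obtain ⟨i, -, rfl⟩ := mem_image.1 (hC hn)
      exact ⟨i, mem_filter.2 ⟨mem_univ _, hn⟩, rfl⟩
    · rintro ⟨i, hi, rfl⟩
      exact (mem_filter.1 hi).2
  refine ⟨∏ i ∈ univ.filter (fun i => D i ∈ C), D i, 1, gv_reg hD hG _, one_pos, ?_⟩
  rw [one_pow, mul_one]
  conv_lhs => rw [e]
  rw [prod_image fun a _ b _ h => hinj h]

open NumberField in
/-- the primes `2`, `4`, `5`, `7` modulo `9` are inert in the fields of odd degree in the cyclotomic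
fields of the powers of three -/
theorem layer_inert (n : ℕ) (K : IntermediateField ℚ ℂ) [NumberField K]
    (hK : K ≤ IntermediateField.adjoin ℚ {z : ℂ | z ^ (3 ^ (n + 1)) = 1})
    (hodd : Odd (Module.finrank ℚ K)) {p : ℕ} (hp : p.Prime)
    (h9 : p % 9 = 2 ∨ p % 9 = 4 ∨ p % 9 = 5 ∨ p % 9 = 7) :
    (Ideal.span {((p : ℕ) : 𝓞 K)}).IsPrime := by
  have hc1 : IsCyclotomicExtension {3 ^ (n + 1)} ℚ (CyclotomicField (3 ^ (n + 1)) ℚ) :=
    CyclotomicField.isCyclotomicExtension (3 ^ (n + 1)) ℚ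
  obtain ⟨φ, ι, K₁, F₁, hK₁, -, -⟩ := Pool.Agent.Y682.XD.embz (3 ^ (n + 1)) (3 ^ (n + 1)) dvd_rfl
    (CyclotomicField (3 ^ (n + 1)) ℚ) (CyclotomicField (3 ^ (n + 1)) ℚ) K
    (IntermediateField.adjoin ℚ {z : ℂ | ∃ d ∈ (∅ : Set ℤ), z ^ 2 = (d : ℂ)}) hK ∅ (by simp) rfl
  let eK : K₁ ≃+* K := ((IntermediateField.equivMap K₁ (φ.comp ι)).trans
    (IntermediateField.equivOfEq hK₁)).toRingEquiv
  have hrk : Module.finrank ℚ K₁ = Module.finrank ℚ K :=
    ((IntermediateField.equivMap K₁ (φ.comp ι)).trans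
      (IntermediateField.equivOfEq hK₁)).toLinearEquiv.finrank_eq
  exact Pool.Agent.Y682.XD.prime_tr eK p (Pool.Agent.Y682.YQ.inert9 n
    (CyclotomicField (3 ^ (n + 1)) ℚ) K₁ (by rw [hrk]; exact hodd) hp h9)

end Pool.Agent.W2helper41.B
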