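import Pool.Agent.W2helper41.B.Frc
import Pool.Agent.W2helper41.Z.Mat

/-!
The matrices of the products of the numbers of a vector, and the condition on the symbols.
-/

set_option autoImplicit false
set_option linter.unusedSectionVars false
set_option linter.unusedVariables false

open scoped Classical

namespace Pool.Agent.W2helper41.B

open Finset Filter Topology
open Pool.Agent.V11291.FK
open Pool.Agent.Y703.CQ (prs)
open Pool.Agent.W2helper41.X (Spl Ine mat ns det_one det_two)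
open Pool.Agent.W2helper41.Z (Fam Bd sps ins f0)

variable {t : ℕ} {r : Fin (t + 2) → ℕ}

/-- the algebra of the condition -/
theorem alg (b0 b1 e : ZMod 2) (V : Fin 2 → Fin (t + 2) → ZMod 2) :
    (∀ A : Finset (Fin (t + 2)),
      (0 ∈ A → 1 ∉ A → b0 + ∑ i ∈ A, V 0 i ≠ 0) ∧
      (0 ∉ A → 1 ∈ A → b1 + ∑ i ∈ A, V 1 i ≠ 0) ∧
      (0 ∈ A → 1 ∈ A → (b0 + ∑ i ∈ A, V 0 i) * (b1 + ∑ i ∈ A, V 1 i) +
        e * ((b0 + ∑ i ∈ A, V 0 i) + (b1 + ∑ i ∈ A, V 1 i)) ≠ 0)) ↔
    RR t b0 b1 (fun x => V x.1 x.2, e) := by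
  have h01 : (0 : Fin (t + 2)) ≠ 1 := by simp
  have k1 : ∀ a : ZMod 2, a ≠ 0 → a = 1 := by decide
  have k2 : ∀ a b c : ZMod 2, a + b = 1 → a + (b + c) ≠ 0 → c = 0 := by decide
  unfold RR
  constructor
  · intro h
    have a1 : b0 + V 0 0 = 1 := by
      apply k1
      have := (h {0}).1 (by simp) (by simp)
      rwa [sum_singleton] at this
    have a2 : b1 + V 1 1 = 1 := by
      apply k1
      have := (h {1}).2.1 (by simp) (by simp)
      rwa [sum_singleton] at this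
    refine ⟨a1, a2, fun i hi0 hi1 => ⟨?_, ?_⟩, ?_⟩
    · have := (h {0, i}).1 (by simp) (by simp [Ne.symm hi1])
      rw [sum_pair (Ne.symm hi0)] at this
      exact k2 _ _ _ a1 this
    · have := (h {1, i}).2.1 (by simp [Ne.symm hi0]) (by simp)
      rw [sum_pair (Ne.symm hi1)] at this
      exact k2 _ _ _ a2 this
    · have := (h {0, 1}).2.2 (by simp) (by simp)
      rw [sum_pair h01, sum_pair h01, ← add_assoc, ← add_assoc] at this
      exact this
  · rintro ⟨a1, a2, a3, a4⟩ A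
    have s0 : ∀ a, 0 ∈ A → 1 ∉ A → ∑ i ∈ A, V a i = V a 0 := by
      intro a h0 h1
      refine sum_eq_single_of_mem 0 h0 fun i hi hi0 => ?_
      have hi1 : i ≠ 1 := fun h => h1 (h ▸ hi)
      fin_cases a
      · exact (a3 i hi0 hi1).1
      · exact (a3 i hi0 hi1).2
    have s1 : ∀ a, 0 ∉ A → 1 ∈ A → ∑ i ∈ A, V a i = V a 1 := by
      intro a h0 h1
      refine sum_eq_single_of_mem 1 h1 fun i hi hi1 => ?_
      have hi0 : i ≠ 0 := fun h => h0 (h ▸ hi)
      fin_cases a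
      · exact (a3 i hi0 hi1).1
      · exact (a3 i hi0 hi1).2
    have s2 : ∀ a, 0 ∈ A → 1 ∈ A → ∑ i ∈ A, V a i = V a 0 + V a 1 := by
      intro a h0 h1
      rw [← sum_pair h01]
      symm
      refine sum_subset ?_ fun i hi hi' => ?_
      · intro i hi
        rw [mem_insert, mem_singleton] at hi
        rcases hi with rfl | rfl
        · exact h0
        · exact h1
      · rw [mem_insert, mem_singleton, not_or] at hi'
        fin_cases a
        · exact (a3 i hi'.1 hi'.2).1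
        · exact (a3 i hi'.1 hi'.2).2
    refine ⟨fun h0 h1 => ?_, fun h0 h1 => ?_, fun h0 h1 => ?_⟩
    · rw [s0 0 h0 h1, a1]
      exact one_ne_zero
    · rw [s1 1 h0 h1, a2]
      exact one_ne_zero
    · rw [s2 0 h0 h1, s2 1 h0 h1, ← add_assoc, ← add_assoc]
      exact a4

/-- the condition for a vector -/
def Gv (D : Fin (t + 2) → ℕ) : Prop := ∀ A : Finset (Fin (t + 2)),
  (mat (sps (∏ i ∈ A, D i)) (∏ q ∈ ins (∏ i ∈ A, D i), q)).det ≠ 0

variable {A : ℕ → Prop} {p : Ix r → ℕ}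

theorem prod_bi (hinj : Function.Injective p) (B : Finset (Fin (t + 2))) :
    ∏ i ∈ B, DD p i = (∏ q ∈ B.biUnion (TT p), q) * ∏ q ∈ B.biUnion (PP p), q := by
  have hd : ∀ i j : Fin (t + 2), i ≠ j → Disjoint (TT p i) (TT p j) ∧ Disjoint (PP p i) (PP p j) := by
    intro i j hij
    have h := disj_DD hinj hij
    exact ⟨Finset.disjoint_of_subset_left subset_union_left
      (Finset.disjoint_of_subset_right subset_union_left h),
      Finset.disjoint_of_subset_left subset_union_right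
      (Finset.disjoint_of_subset_right subset_union_right h)⟩
  rw [prod_biUnion fun i _ j _ hij => (hd i j hij).1, prod_biUnion fun i _ j _ hij => (hd i j hij).2,
    ← prod_mul_distrib]
  exact prod_congr rfl fun i _ => DD_eq hinj i

theorem bi_TT (hp : ∀ i, Kd A r i (p i)) (B : Finset (Fin (t + 2))) :
    ∀ q ∈ B.biUnion (TT p), Ine q := by
  intro q hq
  rw [mem_biUnion] at hq
  obtain ⟨i, -, hi⟩ := hq
  exact (TT_ine hp i q hi).2

theorem bi_PP (hp : ∀ i, Kd A r i (p i)) (B : Finset (Fin (t + 2))) :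
    ∀ q ∈ B.biUnion (PP p), Spl q := by
  intro q hq
  rw [mem_biUnion] at hq
  obtain ⟨i, -, hi⟩ := hq
  exact (PP_spl hp i q hi).2

theorem sps_bi (hp : ∀ i, Kd A r i (p i)) (hinj : Function.Injective p) (B : Finset (Fin (t + 2))) :
    sps (∏ i ∈ B, DD p i) = B.biUnion (PP p) := by
  rw [prod_bi hinj, sps_TP (bi_TT hp B) (bi_PP hp B)]

theorem ins_bi (hp : ∀ i, Kd A r i (p i)) (hinj : Function.Injective p) (B : Finset (Fin (t + 2))) :
    ins (∏ i ∈ B, DD p i) = B.biUnion (TT p) := by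
  rw [prod_bi hinj, ins_TP (bi_TT hp B) (bi_PP hp B)]

/-- the sums of the symbols -/
noncomputable def VV (p : Ix r → ℕ) (a : Fin 2) (i : Fin (t + 2)) : ZMod 2 :=
  ∑ j : Fin (r i), Pool.Agent.Y703.CQ.nr (p (Sum.inl a)) (p (Sum.inr ⟨i, j⟩))

theorem loc (hp : ∀ i, Kd A r i (p i)) (hinj : Function.Injective p) (B : Finset (Fin (t + 2)))
    (a : Fin 2) : X.nr (∏ q ∈ B.biUnion (TT p), q) (p (Sum.inl a)) =
      f0 (p (Sum.inl a)) + ∑ i ∈ B, VV p a i := by
  rw [Z.nr_T (bi_TT hp B) (hp (Sum.inl a)).2]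
  congr 1
  rw [sum_biUnion]
  · refine sum_congr rfl fun i _ => ?_
    unfold TT VV
    rw [sum_image]
    · rfl
    · intro j _ l _ h
      have h1 := hinj h
      simpa using h1
  · intro i _ j _ hij
    exact Finset.disjoint_of_subset_left subset_union_left
      (Finset.disjoint_of_subset_right subset_union_left (disj_DD hinj hij))

theorem PP0 (p : Ix r → ℕ) : PP p 0 = {p (Sum.inl 0)} := by
  unfold PP
  rw [if_pos rfl]

theorem PP1 (p : Ix r → ℕ) : PP p 1 = {p (Sum.inl 1)} := by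
  unfold PP
  rw [if_neg (by simp), if_pos rfl]

theorem PPi (p : Ix r → ℕ) {i : Fin (t + 2)} (h0 : i ≠ 0) (h1 : i ≠ 1) : PP p i = ∅ := by
  unfold PP
  rw [if_neg h0, if_neg h1]

theorem bi_none (p : Ix r → ℕ) {B : Finset (Fin (t + 2))} (h0 : 0 ∉ B) (h1 : 1 ∉ B) :
    B.biUnion (PP p) = ∅ := by
  rw [← not_nonempty_iff_eq_empty]
  rintro ⟨q, hq⟩
  rw [mem_biUnion] at hq
  obtain ⟨i, hi, hq⟩ := hq
  rw [PPi p (fun h => h0 (h ▸ hi)) fun h => h1 (h ▸ hi)] at hq
  exact notMem_empty q hq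

theorem bi_zero (p : Ix r → ℕ) {B : Finset (Fin (t + 2))} (h0 : 0 ∈ B) (h1 : 1 ∉ B) :
    B.biUnion (PP p) = {p (Sum.inl 0)} := by
  ext q
  rw [mem_biUnion, mem_singleton]
  constructor
  · rintro ⟨i, hi, hq⟩
    rcases mem_PP.1 hq with ⟨-, h⟩ | ⟨h, -⟩
    · exact h
    · exact absurd hi (h ▸ h1)
  · intro h
    exact ⟨0, h0, mem_PP.2 (Or.inl ⟨rfl, h⟩)⟩

theorem bi_one (p : Ix r → ℕ) {B : Finset (Fin (t + 2))} (h0 : 0 ∉ B) (h1 : 1 ∈ B) :
    B.biUnion (PP p) = {p (Sum.inl 1)} := by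
  ext q
  rw [mem_biUnion, mem_singleton]
  constructor
  · rintro ⟨i, hi, hq⟩
    rcases mem_PP.1 hq with ⟨h, -⟩ | ⟨-, h⟩
    · exact absurd hi (h ▸ h0)
    · exact h
  · intro h
    exact ⟨1, h1, mem_PP.2 (Or.inr ⟨rfl, h⟩)⟩

theorem bi_both (p : Ix r → ℕ) {B : Finset (Fin (t + 2))} (h0 : 0 ∈ B) (h1 : 1 ∈ B) :
    B.biUnion (PP p) = {p (Sum.inl 0), p (Sum.inl 1)} := by
  ext q
  rw [mem_biUnion, mem_insert, mem_singleton]
  constructor
  · rintro ⟨i, hi, hq⟩
    rcases mem_PP.1 hq with ⟨-, h⟩ | ⟨-, h⟩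
    · exact Or.inl h
    · exact Or.inr h
  · rintro (h | h)
    · exact ⟨0, h0, mem_PP.2 (Or.inl ⟨rfl, h⟩)⟩
    · exact ⟨1, h1, mem_PP.2 (Or.inr ⟨rfl, h⟩)⟩

/-- reciprocity -/
theorem recip (hp : ∀ i, Kd A r i (p i)) (hinj : Function.Injective p) :
    Pool.Agent.Y703.CQ.nr (p (Sum.inl 1)) (p (Sum.inl 0)) =
      Pool.Agent.Y703.CQ.nr (p (Sum.inl 0)) (p (Sum.inl 1)) := by
  have h0 : Spl (p (Sum.inl 0)) := (hp (Sum.inl 0)).2
  have h1 : Spl (p (Sum.inl 1)) := (hp (Sum.inl 1)).2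
  refine Pool.Agent.Y657.CQ.nr_symm h1.1 h1.2.1 h0.1 ?_
  have := h0.2.1
  omega

/-- **the condition for the vector is the condition on the symbols** -/
theorem gv_iff [LinearOrder (Ix r)] (hp : ∀ i, Kd A r i (p i)) (hinj : Function.Injective p) :
    Gv (DD p) ↔ Q r (fun i => f0 (p i)) fun e => Pool.Agent.Y703.CQ.nr (p e.1.1) (p e.1.2) := by
  have hpsi : psi (r := r) (fun e => Pool.Agent.Y703.CQ.nr (p e.1.1) (p e.1.2)) =
      (fun x => VV p x.1 x.2, Pool.Agent.Y703.CQ.nr (p (Sum.inl 0)) (p (Sum.inl 1))) := by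
    unfold psi
    refine Prod.ext ?_ ?_
    · funext x
      show ∑ j : Fin (r x.2), _ = VV p x.1 x.2
      unfold VV
      refine sum_congr rfl fun j _ => ?_
      unfold sy
      rw [dif_pos (mem_mix x.1 ⟨x.2, j⟩)]
    · show sy (r := r) (fun e => Pool.Agent.Y703.CQ.nr (p e.1.1) (p e.1.2)) (Sum.inl 0) (Sum.inl 1) =
        Pool.Agent.Y703.CQ.nr (p (Sum.inl 0)) (p (Sum.inl 1))
      unfold sy
      by_cases h : ((Sum.inl 0, Sum.inl 1) : Ix r × Ix r) ∈ prs (J1 r)
      · rw [dif_pos h]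
      · rw [dif_neg h, dif_pos (mem_prs_or (J1 r) (mem_J1 0) (mem_J1 1) (by simp) h)]
        exact recip hp hinj
  unfold Q
  rw [hpsi, ← alg]
  unfold Gv
  refine forall_congr' fun B => ?_
  rw [sps_bi hp hinj, ins_bi hp hinj]
  have hne : p (Sum.inl 0) ≠ p (Sum.inl 1) := fun h => by simpa using hinj h
  by_cases h0 : (0 : Fin (t + 2)) ∈ B <;> by_cases h1 : (1 : Fin (t + 2)) ∈ B
  · rw [bi_both p h0 h1, det_two hne _ (e := Pool.Agent.Y703.CQ.nr (p (Sum.inl 0)) (p (Sum.inl 1)))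
      (recip hp hinj) rfl, loc hp hinj, loc hp hinj]
    simp only [h0, h1, not_true_eq_false, false_implies, implies_true, true_implies, true_and,
      false_and, and_true]
  · rw [bi_zero p h0 h1, det_one, loc hp hinj]
    simp only [h0, h1, not_true_eq_false, not_false_eq_true, false_implies, implies_true,
      true_implies, true_and, and_true]
  · rw [bi_one p h0 h1, det_one, loc hp hinj]
    simp only [h0, h1, not_true_eq_false, not_false_eq_true, false_implies, implies_true,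
      true_implies, true_and, and_true]
  · rw [bi_none p h0 h1]
    simp only [h0, h1, false_implies, implies_true, and_self, iff_true]
    have hE : IsEmpty (∅ : Finset ℕ) := ⟨fun x => notMem_empty _ x.2⟩
    rw [Matrix.det_isEmpty]
    exact one_ne_zero

end Pool.Agent.W2helper41.B
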