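import Pool.Agent.W2helper41.B.Dat
import Pool.Agent.W2helper41.X.Val

/-!
The condition on the symbols, and its probability.
-/

set_option autoImplicit false
set_option linter.unusedSectionVars false
set_option linter.unusedVariables false

open scoped Classical

namespace Pool.Agent.W2helper41.B

open Finset Filter Topology
open Pool.Agent.V11291.FK
open Pool.Agent.Y703.CQ (prs)
open Pool.Agent.W2helper41.X (Spl Ine mat ns)
open Pool.Agent.W2helper41.Z (Fam Bd sps ins f0)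
open Pool.Agent.Y759.CX (fr fr_comp)

variable {t : ℕ} {r : Fin (t + 2) → ℕ}

/-- the condition -/
def RR (t : ℕ) (b0 b1 : ZMod 2) (h : (Fin 2 × Fin (t + 2) → ZMod 2) × ZMod 2) : Prop :=
  b0 + h.1 (0, 0) = 1 ∧ b1 + h.1 (1, 1) = 1 ∧
  (∀ i : Fin (t + 2), i ≠ 0 → i ≠ 1 → h.1 (0, i) = 0 ∧ h.1 (1, i) = 0) ∧
  (b0 + h.1 (0, 0) + h.1 (0, 1)) * (b1 + h.1 (1, 0) + h.1 (1, 1)) +
    h.2 * ((b0 + h.1 (0, 0) + h.1 (0, 1)) + (b1 + h.1 (1, 0) + h.1 (1, 1))) ≠ 0

/-- the small condition -/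
def R3 (v : ZMod 2 × ZMod 2 × ZMod 2) : Prop :=
  (1 + v.1) * (1 + v.2.1) + v.2.2 * ((1 + v.1) + (1 + v.2.1)) ≠ 0

theorem card_R3 : Nat.card {v // R3 v} = 4 := by
  have : DecidablePred R3 := fun v => by unfold R3; infer_instance
  rw [Nat.card_eq_fintype_card, Fintype.card_subtype]
  have h : (univ.filter fun v : ZMod 2 × ZMod 2 × ZMod 2 =>
      (1 + v.1) * (1 + v.2.1) + v.2.2 * ((1 + v.1) + (1 + v.2.1)) ≠ 0).card = 4 := by decide
  rw [← h]
  congr 1
  ext v
  simp only [mem_filter]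
  exact Iff.rfl

/-- the small values -/
def fil (t : ℕ) (b0 b1 : ZMod 2) (v : ZMod 2 × ZMod 2 × ZMod 2) :
    (Fin 2 × Fin (t + 2) → ZMod 2) × ZMod 2 :=
  (fun x => if x.1 = 0 then (if x.2 = 0 then 1 + b0 else if x.2 = 1 then v.1 else 0)
    else (if x.2 = 0 then v.2.1 else if x.2 = 1 then 1 + b1 else 0), v.2.2)

theorem two_add (x : ZMod 2) : x + x = 0 := by revert x; decide

theorem card_RR (t : ℕ) (b0 b1 : ZMod 2) : Nat.card {h // RR t b0 b1 h} = 4 := by
  rw [← card_R3]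
  have e01 : (1 : Fin (t + 2)) ≠ 0 := by simp
  have e10 : (0 : Fin (t + 2)) ≠ 1 := by simp
  have e2 : (1 : Fin 2) ≠ 0 := by simp
  have hb : ∀ b x : ZMod 2, b + x = 1 → x = 1 + b := by decide
  have hb' : ∀ b : ZMod 2, b + (1 + b) = 1 := by decide
  refine Nat.card_congr
    { toFun := fun h => ⟨(h.1.1 (0, 1), h.1.1 (1, 0), h.1.2), ?_⟩
      invFun := fun v => ⟨fil t b0 b1 v.1, ?_⟩
      left_inv := ?_
      right_inv := ?_ }
  · obtain ⟨⟨u, e⟩, h1, h2, h3, h4⟩ := h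
    unfold R3
    simp only at h1 h2 h4 ⊢
    rw [h1, add_comm (b1 + u (1, 0)), ← add_assoc, add_comm (u (1, 1)), h2] at h4
    exact h4
  · obtain ⟨⟨x, y, e⟩, h⟩ := v
    unfold R3 at h
    unfold RR fil
    simp only [if_true, if_neg e01, if_neg e2] at h ⊢
    refine ⟨hb' b0, hb' b1, ?_, ?_⟩
    · intro i h0 h1
      rw [if_neg h0, if_neg h1, if_neg h0, if_neg h1]
      exact ⟨rfl, rfl⟩
    · have h5 : b1 + y + (1 + b1) = 1 + y := by
        have : ∀ a b : ZMod 2, a + b + (1 + a) = 1 + b := by decide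
        exact this b1 y
      rw [hb' b0, h5]
      exact h
  · rintro ⟨⟨u, e⟩, h1, h2, h3, h4⟩
    apply Subtype.ext
    unfold fil
    simp only at h1 h2 h3 ⊢
    refine Prod.ext ?_ rfl
    funext x
    obtain ⟨a, i⟩ := x
    simp only
    by_cases ha : a = 0
    · subst ha
      rw [if_pos rfl]
      by_cases h0 : i = 0
      · subst h0
        rw [if_pos rfl]
        exact (hb _ _ h1).symm
      · rw [if_neg h0]
        by_cases h5 : i = 1
        · subst h5
          rw [if_pos rfl]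
        · rw [if_neg h5]
          exact (h3 i h0 h5).1.symm
    · have ha1 : a = 1 := by
        have h6 := a.2
        have h7 : (a : ℕ) ≠ 0 := fun h => ha (Fin.ext h)
        exact Fin.ext (by show (a : ℕ) = 1; omega)
      subst ha1
      rw [if_neg ha]
      by_cases h0 : i = 0
      · subst h0
        rw [if_pos rfl]
      · rw [if_neg h0]
        by_cases h5 : i = 1
        · subst h5
          rw [if_pos rfl]
          exact (hb _ _ h2).symm
        · rw [if_neg h5]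
          exact (h3 i h0 h5).2.symm
  · rintro ⟨⟨x, y, e⟩, h⟩
    apply Subtype.ext
    unfold fil
    simp only [if_true, if_neg e01, if_neg e2]

theorem fr_RR (t : ℕ) (b0 b1 : ZMod 2) : fr (RR t b0 b1) = (1 / 2 : ℝ) ^ (2 * t + 3) := by
  unfold fr
  rw [card_RR, Nat.card_prod, Nat.card_fun, Nat.card_prod, Nat.card_eq_fintype_card,
    Nat.card_eq_fintype_card, Nat.card_eq_fintype_card, Fintype.card_fin, Fintype.card_fin,
    ZMod.card]
  push_cast
  have h1 : 2 * (t + 2) = (2 * t + 3) + 1 := by ring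
  rw [h1, pow_succ, one_div, inv_pow]
  have h2 : (2 : ℝ) ^ (2 * t + 3) ≠ 0 := by positivity
  field_simp
  norm_num

section

variable [LinearOrder (Ix r)]

/-- the indices of the split primes -/
def J1 (r : Fin (t + 2) → ℕ) : Finset (Ix r) := {Sum.inl 0, Sum.inl 1}

theorem mem_J1 (a : Fin 2) : (Sum.inl a : Ix r) ∈ J1 r := by
  unfold J1
  rw [mem_insert, mem_singleton]
  fin_cases a
  · exact Or.inl rfl
  · exact Or.inr rfl

theorem not_mem_J1 (x : Σ i : Fin (t + 2), Fin (r i)) : (Sum.inr x : Ix r) ∉ J1 r := by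
  unfold J1
  rw [mem_insert, mem_singleton]
  rintro (h | h) <;> simp at h

theorem mem_prs {ι : Type} [Fintype ι] [LinearOrder ι] (J : Finset ι) (a b : ι) :
    (a, b) ∈ prs J ↔ a ∈ J ∧ b ≠ a ∧ (b ∈ J → a < b) := by
  unfold prs
  rw [mem_filter]
  exact ⟨fun h => h.2, fun h => ⟨mem_univ _, h⟩⟩

theorem mem_prs_or {ι : Type} [Fintype ι] [LinearOrder ι] (J : Finset ι) {a b : ι} (ha : a ∈ J)
    (hb : b ∈ J) (hne : a ≠ b) (h : (a, b) ∉ prs J) : (b, a) ∈ prs J := by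
  rw [mem_prs] at h ⊢
  refine ⟨hb, hne, fun _ => ?_⟩
  by_contra hlt
  apply h
  exact ⟨ha, hne.symm, fun _ => lt_of_le_of_ne (not_lt.1 hlt) hne⟩

/-- the symbol -/
noncomputable def sy (α : prs (J1 r) → ZMod 2) (k l : Ix r) : ZMod 2 :=
  if h : (k, l) ∈ prs (J1 r) then α ⟨(k, l), h⟩
  else if h' : (l, k) ∈ prs (J1 r) then α ⟨(l, k), h'⟩ else 0

theorem sy_add (α β : prs (J1 r) → ZMod 2) (k l : Ix r) : sy (α + β) k l = sy α k l + sy β k l := by
  unfold sy
  split_ifs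
  · rfl
  · rfl
  · rw [add_zero]

theorem mem_mix (a : Fin 2) (x : Σ i : Fin (t + 2), Fin (r i)) :
    ((Sum.inl a, Sum.inr x) : Ix r × Ix r) ∈ prs (J1 r) := by
  rw [mem_prs]
  exact ⟨mem_J1 a, by simp, fun h => absurd h (not_mem_J1 x)⟩

/-- the sums of the symbols -/
noncomputable def psi (α : prs (J1 r) → ZMod 2) : (Fin 2 × Fin (t + 2) → ZMod 2) × ZMod 2 :=
  (fun x => ∑ j : Fin (r x.2), sy α (Sum.inl x.1) (Sum.inr ⟨x.2, j⟩), sy α (Sum.inl 0) (Sum.inl 1))

theorem psi_add (α β : prs (J1 r) → ZMod 2) : psi (α + β) = psi α + psi β := by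
  unfold psi
  refine Prod.ext ?_ (sy_add α β _ _)
  funext x
  show ∑ j : Fin (r x.2), sy (α + β) _ _ = _
  rw [sum_congr rfl fun j _ => sy_add α β _ _, sum_add_distrib]
  rfl

theorem psi_surj (hr : ∀ i, 0 < r i) : Function.Surjective (psi (r := r)) := by
  rintro ⟨u, e⟩
  set g : Ix r → Ix r → ZMod 2 := fun k l =>
    match k, l with
    | Sum.inl a, Sum.inr x => if (x.2 : ℕ) = 0 then u (a, x.1) else 0
    | Sum.inl _, Sum.inl _ => e
    | Sum.inr _, _ => 0 with hg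
  refine ⟨fun e => g e.1.1 e.1.2, ?_⟩
  unfold psi
  refine Prod.ext ?_ ?_
  · funext x
    obtain ⟨a, i⟩ := x
    show ∑ j : Fin (r i), sy _ (Sum.inl a) (Sum.inr ⟨i, j⟩) = u (a, i)
    have h1 : ∀ j : Fin (r i), sy (fun e : prs (J1 r) => g e.1.1 e.1.2) (Sum.inl a) (Sum.inr ⟨i, j⟩) =
        if j = (⟨0, hr i⟩ : Fin (r i)) then u (a, i) else 0 := by
      intro j
      unfold sy
      rw [dif_pos (mem_mix a ⟨i, j⟩)]
      show (if (j : ℕ) = 0 then u (a, i) else 0) = _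
      by_cases hj : (j : ℕ) = 0
      · rw [if_pos hj, if_pos (Fin.ext hj)]
      · rw [if_neg hj, if_neg fun h => hj (by rw [h])]
    rw [sum_congr rfl fun j _ => h1 j, sum_ite_eq' univ _ _, if_pos (mem_univ _)]
  · show sy (r := r) (fun e : prs (J1 r) => g e.1.1 e.1.2) (Sum.inl 0) (Sum.inl 1) = e
    unfold sy
    by_cases h : ((Sum.inl 0, Sum.inl 1) : Ix r × Ix r) ∈ prs (J1 r)
    · rw [dif_pos h]
    · rw [dif_neg h]
      have h' : ((Sum.inl 1, Sum.inl 0) : Ix r × Ix r) ∈ prs (J1 r) :=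
        mem_prs_or (J1 r) (mem_J1 0) (mem_J1 1) (by simp) h
      rw [dif_pos h']

/-- the condition on the labels and the symbols -/
def Q (r : Fin (t + 2) → ℕ) [LinearOrder (Ix r)] (β : Ix r → ZMod 2) (α : prs (J1 r) → ZMod 2) : Prop :=
  RR t (β (Sum.inl 0)) (β (Sum.inl 1)) (psi α)

/-- **the probability** -/
theorem prob_Q (hr : ∀ i, 0 < r i) (β : Ix r → ZMod 2) :
    ((univ.filter (Q r β)).card : ℝ) / 2 ^ (prs (J1 r)).card = (1 / 2 : ℝ) ^ (2 * t + 3) := by
  rw [← fr_RR t (β (Sum.inl 0)) (β (Sum.inl 1))]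
  let π : (prs (J1 r) → ZMod 2) →+ (Fin 2 × Fin (t + 2) → ZMod 2) × ZMod 2 :=
    { toFun := psi
      map_zero' := by
        have h := psi_add (0 : prs (J1 r) → ZMod 2) 0
        rw [add_zero] at h
        exact (left_eq_add.1 h)
      map_add' := psi_add }
  rw [← fr_comp π (psi_surj hr)]
  unfold fr
  have h6 : Nat.card (prs (J1 r) → ZMod 2) = 2 ^ (prs (J1 r)).card := by
    rw [Nat.card_fun, Nat.card_eq_fintype_card, Nat.card_eq_fintype_card, ZMod.card,
      Fintype.card_coe]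
  rw [h6, Nat.card_eq_fintype_card, Fintype.card_subtype]
  push_cast
  congr 3

theorem prob_Q' (hr : ∀ i, 0 < r i) (β : Ix r → ZMod 2) :
    ((Nat.card {α // Q r β α} : ℕ) : ℝ) / 2 ^ (prs (J1 r)).card = (1 / 2 : ℝ) ^ (2 * t + 3) := by
  rw [← card_filter_nat]
  exact prob_Q hr β

end

end Pool.Agent.W2helper41.B
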