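import Pool.Agent.W2helper41.B.Sum
import Pool.Agent.W2helper41.Z.Num

/-!
Vectors of numbers `D₀, …, D_{t+1}`, the first two with one split prime each, and the tuples of primes.
-/

set_option autoImplicit false
set_option linter.unusedSectionVars false
set_option linter.unusedVariables false

open scoped Classical

namespace Pool.Agent.W2helper41.B

open Finset Filter Topology
open Pool.Agent.V11291.FK
open Pool.Agent.W2helper41.X (Spl Ine mat)
open Pool.Agent.W2helper41.Z (Fam Bd sps ins)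

/-- the index type of the primes -/
abbrev Ix {t : ℕ} (r : Fin (t + 2) → ℕ) : Type := Fin 2 ⊕ (Σ i : Fin (t + 2), Fin (r i))

variable {t : ℕ} {r : Fin (t + 2) → ℕ}

/-- the kind of the prime -/
def Kd (A : ℕ → Prop) (r : Fin (t + 2) → ℕ) : Ix r → ℕ → Prop :=
  Sum.elim (fun _ p => A p ∧ Spl p) fun _ p => A p ∧ Ine p

theorem kd_prime {A : ℕ → Prop} : ∀ i p, Kd A r i p → p.Prime := by
  rintro (i | i) p h
  · exact h.2.1
  · exact h.2.1

/-- the number of the split primes -/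
def kp (i : Fin (t + 2)) : ℕ := if i = 0 ∨ i = 1 then 1 else 0

/-- the split part -/
def spt (p : Ix r → ℕ) (i : Fin (t + 2)) : ℕ :=
  if i = 0 then p (Sum.inl 0) else if i = 1 then p (Sum.inl 1) else 1

/-- the inert part -/
def ipt (p : Ix r → ℕ) (i : Fin (t + 2)) : ℕ := ∏ j : Fin (r i), p (Sum.inr ⟨i, j⟩)

/-- the numbers -/
def DD (p : Ix r → ℕ) (i : Fin (t + 2)) : ℕ := ipt p i * spt p i

/-- the family -/
def Fms (A : ℕ → Prop) (r : Fin (t + 2) → ℕ) (D : Fin (t + 2) → ℕ) : Prop :=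
  (∀ i, Fam A (kp i) (r i) (D i)) ∧ Pairwise fun i j => Nat.Coprime (D i) (D j)

/-- the elements up to `X` -/
noncomputable def FX (A : ℕ → Prop) (r : Fin (t + 2) → ℕ) (X : ℕ) : Finset (Fin (t + 2) → ℕ) :=
  (Fintype.piFinset fun _ => Icc 1 X).filter fun D => Fms A r D ∧ ∏ i, D i ≤ X

theorem mem_FX {A : ℕ → Prop} {X : ℕ} {D : Fin (t + 2) → ℕ} :
    D ∈ FX A r X ↔ Fms A r D ∧ ∏ i, D i ≤ X := by
  unfold FX
  rw [mem_filter, Fintype.mem_piFinset]
  constructor
  · exact fun h => h.2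
  · intro h
    refine ⟨fun i => ?_, h⟩
    have hpos : ∀ i, 0 < D i := fun i => Nat.pos_of_ne_zero (h.1.1 i).1.ne_zero
    rw [mem_Icc]
    refine ⟨hpos i, le_trans ?_ h.2⟩
    exact Nat.le_of_dvd (prod_pos fun j _ => hpos j) (dvd_prod_of_mem _ (mem_univ i))

/-- the set of the inert primes of the `i`-th number -/
noncomputable def TT (p : Ix r → ℕ) (i : Fin (t + 2)) : Finset ℕ :=
  univ.image fun j : Fin (r i) => p (Sum.inr ⟨i, j⟩)

/-- the set of the split primes of the `i`-th number -/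
noncomputable def PP (p : Ix r → ℕ) (i : Fin (t + 2)) : Finset ℕ :=
  if i = 0 then {p (Sum.inl 0)} else if i = 1 then {p (Sum.inl 1)} else ∅

theorem prod_TT {p : Ix r → ℕ} (hinj : Function.Injective p) (i : Fin (t + 2)) :
    ∏ q ∈ TT p i, q = ipt p i := by
  unfold TT ipt
  rw [prod_image]
  intro a _ b _ h
  have h1 := hinj h
  simpa using h1

theorem prod_PP (p : Ix r → ℕ) (i : Fin (t + 2)) : ∏ q ∈ PP p i, q = spt p i := by
  unfold PP spt
  split_ifs
  · rw [prod_singleton]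
  · rw [prod_singleton]
  · rw [prod_empty]

theorem card_TT {p : Ix r → ℕ} (hinj : Function.Injective p) (i : Fin (t + 2)) :
    (TT p i).card = r i := by
  unfold TT
  rw [card_image_of_injective, card_univ, Fintype.card_fin]
  intro a b h
  have h1 := hinj h
  simpa using h1

theorem card_PP (p : Ix r → ℕ) (i : Fin (t + 2)) : (PP p i).card = kp i := by
  unfold PP kp
  by_cases h0 : i = 0
  · rw [if_pos h0, if_pos (Or.inl h0), card_singleton]
  · rw [if_neg h0]
    by_cases h1 : i = 1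
    · rw [if_pos h1, if_pos (Or.inr h1), card_singleton]
    · rw [if_neg h1, if_neg (by tauto), card_empty]

theorem TT_ine {A : ℕ → Prop} {p : Ix r → ℕ} (hp : ∀ i, Kd A r i (p i)) (i : Fin (t + 2)) :
    ∀ q ∈ TT p i, A q ∧ Ine q := by
  intro q hq
  unfold TT at hq
  rw [mem_image] at hq
  obtain ⟨j, -, rfl⟩ := hq
  exact hp (Sum.inr ⟨i, j⟩)

theorem PP_spl {A : ℕ → Prop} {p : Ix r → ℕ} (hp : ∀ i, Kd A r i (p i)) (i : Fin (t + 2)) :
    ∀ q ∈ PP p i, A q ∧ Spl q := by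
  intro q hq
  unfold PP at hq
  split_ifs at hq
  · rw [mem_singleton] at hq
    rw [hq]
    exact hp (Sum.inl 0)
  · rw [mem_singleton] at hq
    rw [hq]
    exact hp (Sum.inl 1)
  · exact absurd hq (notMem_empty q)

theorem disj_TP {T P : Finset ℕ} (hT : ∀ q ∈ T, Ine q) (hP : ∀ p ∈ P, Spl p) : Disjoint T P := by
  rw [Finset.disjoint_left]
  intro q hq hq'
  have h1 := (hT q hq).2.1
  have h2 := (hP q hq').2.1
  omega

/-- the prime factors of `∏ T ∏ P` -/
theorem pf_TP {T P : Finset ℕ} (hT : ∀ q ∈ T, Ine q) (hP : ∀ p ∈ P, Spl p) :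
    ((∏ q ∈ T, q) * ∏ p ∈ P, p).primeFactors = T ∪ P := by
  rw [← prod_union (disj_TP hT hP)]
  apply Nat.primeFactors_prod
  intro p hp
  rcases mem_union.1 hp with h | h
  · exact (hT p h).1
  · exact (hP p h).1

theorem ins_TP {T P : Finset ℕ} (hT : ∀ q ∈ T, Ine q) (hP : ∀ p ∈ P, Spl p) :
    ins ((∏ q ∈ T, q) * ∏ p ∈ P, p) = T := by
  unfold ins
  rw [pf_TP hT hP, filter_union, filter_true_of_mem fun q hq => (hT q hq).2.1,
    filter_false_of_mem fun q hq => by have := (hP q hq).2.1; omega, union_empty]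

theorem sps_TP {T P : Finset ℕ} (hT : ∀ q ∈ T, Ine q) (hP : ∀ p ∈ P, Spl p) :
    sps ((∏ q ∈ T, q) * ∏ p ∈ P, p) = P := by
  unfold sps
  rw [pf_TP hT hP, filter_union, filter_false_of_mem fun q hq => by have := (hT q hq).2.1; omega,
    filter_true_of_mem fun q hq => (hP q hq).2.1, empty_union]

theorem DD_eq {p : Ix r → ℕ} (hinj : Function.Injective p) (i : Fin (t + 2)) :
    DD p i = (∏ q ∈ TT p i, q) * ∏ q ∈ PP p i, q := by
  rw [prod_TT hinj, prod_PP]
  rfl

theorem fam_TP {A : ℕ → Prop} {T P : Finset ℕ} (hT : ∀ q ∈ T, A q ∧ Ine q)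
    (hP : ∀ p ∈ P, A p ∧ Spl p) : Fam A P.card T.card ((∏ q ∈ T, q) * ∏ p ∈ P, p) := by
  have hT' : ∀ q ∈ T, Ine q := fun q hq => (hT q hq).2
  have hP' : ∀ q ∈ P, Spl q := fun q hq => (hP q hq).2
  refine ⟨?_, ?_, ?_, ?_⟩
  · rw [← prod_union (disj_TP hT' hP')]
    apply Pool.Agent.Y687.squarefree_prod
    intro p hp
    rcases mem_union.1 hp with h | h
    · exact (hT' p h).1
    · exact (hP' p h).1
  · rw [pf_TP hT' hP']
    intro p hp
    rcases mem_union.1 hp with h | h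
    · exact ⟨(hT p h).1, Or.inr (hT p h).2⟩
    · exact ⟨(hP p h).1, Or.inl (hP p h).2⟩
  · rw [sps_TP hT' hP']
  · rw [ins_TP hT' hP']

/-- the product of all the primes -/
theorem prod_DD (p : Ix r → ℕ) : ∏ i, DD p i = ∏ i, p i := by
  unfold DD
  rw [prod_mul_distrib, Fintype.prod_sum_type, Fin.prod_univ_two, Fintype.prod_sigma, mul_comm]
  congr 1
  unfold spt
  rw [Fin.prod_univ_succ, Fin.prod_univ_succ]
  have h1 : ∀ i : Fin t, (if i.succ.succ = (0 : Fin (t + 2)) then p (Sum.inl 0) else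
      if i.succ.succ = (1 : Fin (t + 2)) then p (Sum.inl 1) else 1) = 1 := by
    intro i
    rw [if_neg (Fin.succ_ne_zero _), if_neg]
    intro h
    have h2 := congrArg Fin.val h
    simp at h2
  rw [prod_congr rfl fun i _ => h1 i, prod_const_one, mul_one]
  simp

theorem mem_TT {p : Ix r → ℕ} {i : Fin (t + 2)} {q : ℕ} :
    q ∈ TT p i ↔ ∃ j, p (Sum.inr ⟨i, j⟩) = q := by
  unfold TT
  rw [mem_image]
  simp

theorem mem_PP {p : Ix r → ℕ} {i : Fin (t + 2)} {q : ℕ} :
    q ∈ PP p i ↔ (i = 0 ∧ q = p (Sum.inl 0)) ∨ (i = 1 ∧ q = p (Sum.inl 1)) := by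
  unfold PP
  by_cases h0 : i = 0
  · subst h0
    simp
  · rw [if_neg h0]
    by_cases h1 : i = 1
    · subst h1
      simp
    · rw [if_neg h1]
      simp [h0, h1]

/-- the sets of the primes of different numbers are disjoint -/
theorem disj_DD {p : Ix r → ℕ} (hinj : Function.Injective p) {i j : Fin (t + 2)} (hij : i ≠ j) :
    Disjoint (TT p i ∪ PP p i) (TT p j ∪ PP p j) := by
  rw [Finset.disjoint_left]
  intro q hq hq'
  rw [mem_union, mem_TT, mem_PP] at hq hq'
  rcases hq with ⟨a, ha⟩ | ⟨h1, h2⟩ | ⟨h1, h2⟩ <;> rcases hq' with ⟨b, hb⟩ | ⟨h3, h4⟩ | ⟨h3, h4⟩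
  · have h := hinj (ha.trans hb.symm)
    rw [Sum.inr.injEq, Sigma.mk.injEq] at h
    exact hij h.1
  · exact absurd (hinj (ha.trans h4)) (by simp)
  · exact absurd (hinj (ha.trans h4)) (by simp)
  · exact absurd (hinj (hb.trans h2)) (by simp)
  · exact hij (h1.trans h3.symm)
  · exact absurd (hinj (h2.symm.trans h4)) (by simp)
  · exact absurd (hinj (hb.trans h2)) (by simp)
  · exact absurd (hinj (h2.symm.trans h4)) (by simp)
  · exact hij (h1.trans h3.symm)

theorem fms_DD {A : ℕ → Prop} {p : Ix r → ℕ} (hp : ∀ i, Kd A r i (p i))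
    (hinj : Function.Injective p) : Fms A r (DD p) := by
  have hT : ∀ i, ∀ q ∈ TT p i, Ine q := fun i q hq => (TT_ine hp i q hq).2
  have hP : ∀ i, ∀ q ∈ PP p i, Spl q := fun i q hq => (PP_spl hp i q hq).2
  refine ⟨fun i => ?_, ?_⟩
  · have h := fam_TP (TT_ine hp i) (PP_spl hp i)
    rw [card_TT hinj, card_PP, ← DD_eq hinj] at h
    exact h
  · intro i j hij
    rw [DD_eq hinj, DD_eq hinj, ← Nat.disjoint_primeFactors, pf_TP (hT i) (hP i), pf_TP (hT j) (hP j)]
    · exact disj_DD hinj hij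
    · rw [← prod_union (disj_TP (hT i) (hP i))]
      refine prod_ne_zero_iff.2 fun q hq => ?_
      rcases mem_union.1 hq with h | h
      · exact (hT i q h).1.ne_zero
      · exact (hP i q h).1.ne_zero
    · rw [← prod_union (disj_TP (hT j) (hP j))]
      refine prod_ne_zero_iff.2 fun q hq => ?_
      rcases mem_union.1 hq with h | h
      · exact (hT j q h).1.ne_zero
      · exact (hP j q h).1.ne_zero

/-- the split prime of a number with one split prime -/
theorem exists_sp {A : ℕ → Prop} {D : Fin (t + 2) → ℕ} (hD : Fms A r D) {i : Fin (t + 2)}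
    (hi : i = 0 ∨ i = 1) : ∃ p, sps (D i) = {p} := by
  have h := (hD.1 i).2.2.1
  unfold kp at h
  rw [if_pos hi] at h
  exact card_eq_one.1 h

/-- the tuple of a numbering -/
noncomputable def tup (D : Fin (t + 2) → ℕ) (s₀ s₁ : ℕ)
    (e : (i : Fin (t + 2)) → Fin (r i) ≃ {q : ℕ // q ∈ ins (D i)}) : Ix r → ℕ :=
  Sum.elim (fun a => if a = 0 then s₀ else s₁) fun x => (e x.1 x.2 : ℕ)

theorem tup_kd {A : ℕ → Prop} {D : Fin (t + 2) → ℕ} (hD : Fms A r D) {s₀ s₁ : ℕ}
    (h₀ : sps (D 0) = {s₀}) (h₁ : sps (D 1) = {s₁})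
    (e : (i : Fin (t + 2)) → Fin (r i) ≃ {q : ℕ // q ∈ ins (D i)}) :
    ∀ i, Kd A r i (tup D s₀ s₁ e i) := by
  have hA : ∀ i, ∀ p ∈ (D i).primeFactors, A p := fun i p hp => ((hD.1 i).2.1 p hp).1
  rintro (a | ⟨i, j⟩)
  · show A (if a = 0 then s₀ else s₁) ∧ Spl (if a = 0 then s₀ else s₁)
    split_ifs
    · have h : s₀ ∈ sps (D 0) := by rw [h₀]; exact mem_singleton_self _
      exact ⟨hA 0 _ (mem_filter.1 h).1, Z.sps_spl (hD.1 0) _ h⟩
    · have h : s₁ ∈ sps (D 1) := by rw [h₁]; exact mem_singleton_self _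
      exact ⟨hA 1 _ (mem_filter.1 h).1, Z.sps_spl (hD.1 1) _ h⟩
  · have h := (e i j).2
    exact ⟨hA i _ (mem_filter.1 h).1, Z.ins_ine (hD.1 i) _ h⟩

theorem tup_inj {A : ℕ → Prop} {D : Fin (t + 2) → ℕ} (hD : Fms A r D) {s₀ s₁ : ℕ}
    (h₀ : sps (D 0) = {s₀}) (h₁ : sps (D 1) = {s₁})
    (e : (i : Fin (t + 2)) → Fin (r i) ≃ {q : ℕ // q ∈ ins (D i)}) :
    Function.Injective (tup D s₀ s₁ e) := by
  have hs0 : s₀ ∈ sps (D 0) := by rw [h₀]; exact mem_singleton_self _
  have hs1 : s₁ ∈ sps (D 1) := by rw [h₁]; exact mem_singleton_self _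
  have hdis : ∀ {i j : Fin (t + 2)}, i ≠ j → ∀ q, q ∈ (D i).primeFactors →
      q ∈ (D j).primeFactors → False := by
    intro i j hij q hq hq'
    have h1 := (hD.2 hij).disjoint_primeFactors
    exact Finset.disjoint_left.1 h1 hq hq'
  have hne : s₀ ≠ s₁ := by
    intro h
    refine hdis (i := 0) (j := 1) (by simp) s₀ (mem_filter.1 hs0).1 ?_
    rw [h]
    exact (mem_filter.1 hs1).1
  have hmix : ∀ a i j, tup D s₀ s₁ e (Sum.inl a) ≠ tup D s₀ s₁ e (Sum.inr ⟨i, j⟩) := by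
    intro a i j h
    have h2 := (tup_kd hD h₀ h₁ e (Sum.inl a)).2.2.1
    have h3 := (tup_kd hD h₀ h₁ e (Sum.inr ⟨i, j⟩)).2.2.1
    rw [h] at h2
    omega
  rintro (a | ⟨i, j⟩) (b | ⟨k, l⟩) h
  · congr 1
    fin_cases a <;> fin_cases b
    · rfl
    · exact absurd h hne
    · exact absurd h hne.symm
    · rfl
  · exact absurd h (hmix _ _ _)
  · exact absurd h.symm (hmix _ _ _)
  · by_cases hik : i = k
    · subst hik
      have h1 : e i j = e i l := Subtype.ext h
      rw [(e i).injective h1]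
    · exfalso
      refine hdis hik _ (mem_filter.1 (e i j).2).1 ?_
      have h1 : ((e i j : {q : ℕ // q ∈ ins (D i)}) : ℕ) = e k l := h
      rw [h1]
      exact (mem_filter.1 (e k l).2).1

theorem tup_DD {A : ℕ → Prop} {D : Fin (t + 2) → ℕ} (hD : Fms A r D) {s₀ s₁ : ℕ}
    (h₀ : sps (D 0) = {s₀}) (h₁ : sps (D 1) = {s₁})
    (e : (i : Fin (t + 2)) → Fin (r i) ≃ {q : ℕ // q ∈ ins (D i)}) :
    DD (tup D s₀ s₁ e) = D := by
  funext i
  rw [Z.prod_eq (hD.1 i)]
  unfold DD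
  congr 1
  · unfold ipt
    have h1 : ∀ j, tup D s₀ s₁ e (Sum.inr ⟨i, j⟩) = ((e i j : {q : ℕ // q ∈ ins (D i)}) : ℕ) :=
      fun j => rfl
    rw [prod_congr rfl fun j _ => h1 j, (e i).prod_comp fun q => (q : ℕ),
      ← Finset.prod_coe_sort (ins (D i)) fun q => q]
  · unfold spt
    by_cases hi0 : i = 0
    · subst hi0
      rw [if_pos rfl, h₀, prod_singleton]
      rfl
    · rw [if_neg hi0]
      by_cases hi1 : i = 1
      · subst hi1
        rw [if_pos rfl, h₁, prod_singleton]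
        rfl
      · rw [if_neg hi1]
        have h := (hD.1 i).2.2.1
        unfold kp at h
        rw [if_neg (by tauto), card_eq_zero] at h
        rw [h, prod_empty]

/-- the numbering of the inert primes by a tuple -/
noncomputable def nmb {p : Ix r → ℕ} (hinj : Function.Injective p) (i : Fin (t + 2)) {T : Finset ℕ}
    (hT : TT p i = T) : Fin (r i) ≃ {q : ℕ // q ∈ T} :=
  Equiv.ofBijective (fun j => ⟨p (Sum.inr ⟨i, j⟩), by rw [← hT]; exact mem_TT.2 ⟨j, rfl⟩⟩) (by
    constructor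
    · intro a b h
      have h1 := hinj (congrArg Subtype.val h)
      simpa using h1
    · rintro ⟨q, hq⟩
      rw [← hT] at hq
      obtain ⟨j, hj⟩ := mem_TT.1 hq
      exact ⟨j, Subtype.ext hj⟩)

/-- the fibres have the same size -/
theorem fib_card [LinearOrder (Ix r)] {A : ℕ → Prop} {X : ℕ} {D : Fin (t + 2) → ℕ} (hD : D ∈ FX A r X) :
    ((Tup (Kd A r) X).filter fun p => DD p = D).card = ∏ i, (r i).factorial := by
  rw [mem_FX] at hD
  obtain ⟨hD, hX⟩ := hD
  obtain ⟨s₀, h₀⟩ := exists_sp hD (Or.inl rfl : (0 : Fin (t + 2)) = 0 ∨ (0 : Fin (t + 2)) = 1)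
  obtain ⟨s₁, h₁⟩ := exists_sp hD (Or.inr rfl : (1 : Fin (t + 2)) = 0 ∨ (1 : Fin (t + 2)) = 1)
  have hc : ∀ i, Nonempty (Fin (r i) ≃ {q : ℕ // q ∈ ins (D i)}) := by
    intro i
    apply Fintype.card_eq.1
    rw [Fintype.card_fin, Fintype.card_coe]
    exact (hD.1 i).2.2.2.symm
  have hcard : Fintype.card ((i : Fin (t + 2)) → Fin (r i) ≃ {q : ℕ // q ∈ ins (D i)}) =
      ∏ i, (r i).factorial := by
    rw [Fintype.card_pi]
    refine prod_congr rfl fun i _ => ?_
    obtain ⟨e⟩ := hc i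
    rw [Fintype.card_equiv e, Fintype.card_fin]
  rw [← hcard, ← card_univ]
  have hTT : ∀ p ∈ (Tup (Kd A r) X).filter (fun p => DD p = D), ∀ i, TT p i = ins (D i) := by
    intro p hp i
    rw [mem_filter, mem_Tup kd_prime] at hp
    obtain ⟨⟨h1, h2, h3⟩, h4⟩ := hp
    rw [← h4, DD_eq h2, ins_TP (fun q hq => (TT_ine h1 i q hq).2) fun q hq => (PP_spl h1 i q hq).2]
  have hPP : ∀ p ∈ (Tup (Kd A r) X).filter (fun p => DD p = D), ∀ i, PP p i = sps (D i) := by
    intro p hp i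
    rw [mem_filter, mem_Tup kd_prime] at hp
    obtain ⟨⟨h1, h2, h3⟩, h4⟩ := hp
    rw [← h4, DD_eq h2, sps_TP (fun q hq => (TT_ine h1 i q hq).2) fun q hq => (PP_spl h1 i q hq).2]
  refine Finset.card_bij (fun p hp i => nmb ((mem_Tup kd_prime).1 (mem_filter.1 hp).1).2.1 i
    (hTT p hp i)) (fun _ _ => mem_univ _) ?_ ?_
  · intro p hp p' hp' h
    funext x
    rcases x with a | ⟨i, j⟩
    · fin_cases a
      · have e1 := hPP p hp 0
        have e2 := hPP p' hp' 0
        rw [← e2] at e1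
        unfold PP at e1
        rw [if_pos rfl, if_pos rfl] at e1
        exact singleton_injective e1
      · have e1 := hPP p hp 1
        have e2 := hPP p' hp' 1
        rw [← e2] at e1
        unfold PP at e1
        rw [if_neg (by simp), if_pos rfl, if_neg (by simp), if_pos rfl] at e1
        exact singleton_injective e1
    · have h1 := congrFun h i
      have h2 := congrArg (fun e : Fin (r i) ≃ {q : ℕ // q ∈ ins (D i)} => ((e j : {q : ℕ // q ∈ ins (D i)}) : ℕ)) h1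
      exact h2
  · intro e _
    have h1 := tup_kd hD h₀ h₁ e
    have h2 := tup_inj hD h₀ h₁ e
    have h3 := tup_DD hD h₀ h₁ e
    refine ⟨tup D s₀ s₁ e, ?_, ?_⟩
    · rw [mem_filter, mem_Tup kd_prime]
      refine ⟨⟨h1, h2, ?_⟩, h3⟩
      rw [← prod_DD, h3]
      exact hX
    · funext i
      ext j
      rfl

/-- **the numbers of the tuples and of the vectors are proportional** -/
theorem cnt (A : ℕ → Prop) (r : Fin (t + 2) → ℕ) [LinearOrder (Ix r)] (X : ℕ) (G : (Fin (t + 2) → ℕ) → Prop) :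
    ((Tup (Kd A r) X).filter fun p => G (DD p)).card =
      (∏ i, (r i).factorial) * ((FX A r X).filter G).card := by
  rw [Finset.card_eq_sum_card_fiberwise (f := fun p => DD p) (t := (FX A r X).filter G)]
  · rw [sum_congr rfl fun D hD => ?_, sum_const, smul_eq_mul, mul_comm]
    · rw [mem_filter] at hD
      rw [← fib_card hD.1]
      congr 1
      ext p
      simp only [mem_filter]
      constructor
      · rintro ⟨⟨h1, -⟩, h3⟩
        exact ⟨h1, h3⟩
      · rintro ⟨h1, h3⟩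
        exact ⟨⟨h1, by rw [h3]; exact hD.2⟩, h3⟩
  · intro p hp
    rw [mem_coe, mem_filter, mem_Tup kd_prime] at hp
    rw [mem_coe, mem_filter, mem_FX, prod_DD]
    exact ⟨⟨fms_DD hp.1.1 hp.1.2.1, hp.1.2.2⟩, hp.2⟩

end Pool.Agent.W2helper41.B
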