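import Pool.Agent.W2helper41.B.Cri

/-!
The law for the vectors, and the size of the family.
-/

set_option autoImplicit false
set_option linter.unusedSectionVars false
set_option linter.unusedVariables false

open scoped Classical

namespace Pool.Agent.W2helper41.B

open Finset Filter Topology
open Pool.Agent.V11291.FK
open Pool.Agent.Y703.CQ (prs)
open Pool.Agent.W2helper41.X (Spl Ine mat ns)
open Pool.Agent.W2helper41.Z (Fam Bd sps ins f0 Rich)

variable {t : ℕ} {r : Fin (t + 2) → ℕ} {A : ℕ → Prop}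

theorem card_Ix (r : Fin (t + 2) → ℕ) : Fintype.card (Ix r) = (∑ i, r i) + 2 := by
  rw [Fintype.card_sum, Fintype.card_fin, Fintype.card_sigma, add_comm]
  simp

theorem kd_dn (hD : Rich A) (i : Ix r) : Dn (Kd A r i) := by
  rcases i with i | i
  · exact hD.1
  · exact hD.2

theorem kd_P [LinearOrder (Ix r)] (i : Ix r) (p : ℕ) (h : Kd A r i p) :
    p.Prime ∧ p ≠ 2 ∧ (i ∈ J1 r → p % 8 = 1) := by
  rcases i with i | i
  · have h1 : Spl p := h.2
    refine ⟨h1.1, ?_, fun _ => h1.2.1⟩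
    have := h1.2.1
    omega
  · have h1 : Ine p := h.2
    refine ⟨h1.1, ?_, fun hi => absurd hi (not_mem_J1 i)⟩
    have := h1.2.1
    omega

theorem V_law' [LinearOrder (Ix r)] (hr : ∀ i, 0 < r i) (hD : Rich A) :
    Tendsto (fun X : ℕ => (((FX A r X).filter Gv).card : ℝ) / ((FX A r X).card : ℝ)) atTop
      (𝓝 ((1 / 2 : ℝ) ^ (2 * t + 3))) := by
  have h := lawN f0 (J1 r) (Q r) (α := (1 / 2 : ℝ) ^ (2 * t + 3)) (by positivity)
    (pow_le_one₀ (by norm_num) (by norm_num)) (prob_Q' hr) (P := Kd A r) kd_P (card_Ix r)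
    (Sum.inl 0) (kd_dn hD)
  refine h.congr fun X => ?_
  have e1 := cnt A r X Gv
  have e2 := cnt A r X fun _ => True
  rw [filter_true, filter_true] at e2
  have e3 : ((Tup (Kd A r) X).filter fun p => Q r (fun i => f0 (p i))
      fun e => Pool.Agent.Y703.CQ.nr (p e.1.1) (p e.1.2)) =
      (Tup (Kd A r) X).filter fun p => Gv (DD p) := by
    refine filter_congr fun p hp => ?_
    rw [mem_Tup kd_prime] at hp
    exact (gv_iff hp.1 hp.2.1).symm
  rw [e3, e1, e2]
  have hm : ((∏ i, (r i).factorial : ℕ) : ℝ) ≠ 0 := by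
    rw [Nat.cast_ne_zero, prod_ne_zero_iff]
    exact fun i _ => Nat.factorial_ne_zero _
  rw [Nat.cast_mul, Nat.cast_mul, mul_div_mul_left _ _ hm]

/-- **the law for the vectors** -/
theorem V_law (hr : ∀ i, 0 < r i) (hD : Rich A) :
    Tendsto (fun X : ℕ => (((FX A r X).filter Gv).card : ℝ) / ((FX A r X).card : ℝ)) atTop
      (𝓝 ((1 / 2 : ℝ) ^ (2 * t + 3))) :=
  @V_law' t r A (LinearOrder.lift' (Fintype.equivFin (Ix r)) (Fintype.equivFin (Ix r)).injective)
    hr hD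

theorem V_size' [LinearOrder (Ix r)] (hD : Rich A) :
    ∃ (c C : ℝ) (X₀ : ℕ), 0 < c ∧ 0 < C ∧ ∀ X : ℕ, X₀ ≤ X →
      c * (X * Real.log (Real.log X) ^ ((∑ i, r i) + 1) / Real.log X) ≤ ((FX A r X).card : ℝ) ∧
      ((FX A r X).card : ℝ) ≤ C * (X * Real.log (Real.log X) ^ ((∑ i, r i) + 1) / Real.log X) := by
  obtain ⟨c, X₀, hc, hlow⟩ := low (P := Kd A r) kd_prime (kd_dn hD) (Sum.inl 0)
  obtain ⟨C, X₁, hC, hup⟩ := FW_up (ι := Ix r) (B := Nat.Prime) (cl := fun _ => 0) (τ := fun _ => 0)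
    (fun p hp => hp) (j := (∑ i, r i) + 1) (card_Ix r) fun _ => True
  have hm : 0 < ((∏ i, (r i).factorial : ℕ) : ℝ) := by
    rw [Nat.cast_pos]
    exact prod_pos fun i _ => Nat.factorial_pos _
  have hn : (0 : ℝ) < ((Fintype.card (Ix r) ^ Fintype.card (Ix r) : ℕ) : ℝ) := by
    rw [Nat.cast_pos]
    exact pow_pos (Fintype.card_pos_iff.2 ⟨Sum.inl 0⟩) _
  have hcnt : ∀ X, (((Tup (Kd A r) X).card : ℕ) : ℝ) =
      ((∏ i, (r i).factorial : ℕ) : ℝ) * ((FX A r X).card : ℝ) := by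
    intro X
    have e2 := cnt A r X fun _ => True
    rw [filter_true, filter_true] at e2
    rw [e2, Nat.cast_mul]
  refine ⟨c / ((∏ i, (r i).factorial : ℕ) : ℝ),
    ((Fintype.card (Ix r) ^ Fintype.card (Ix r) : ℕ) : ℝ) * C, max X₀ X₁, by positivity,
    by positivity, fun X hX => ⟨?_, ?_⟩⟩
  · have h1 := hlow X ((le_max_left _ _).trans hX)
    rw [card_Ix, hcnt X] at h1
    rw [div_mul_eq_mul_div, div_le_iff₀ hm, mul_comm ((FX A r X).card : ℝ)]
    exact h1
  · have h1 := hup X ((le_max_right _ _).trans hX)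
    have h2 := card_le_image (Tup (Kd A r) X) (fun p hp => ((mem_Tup kd_prime).1 hp).2.1)
      (FW (ι := Ix r) Nat.Prime (fun _ => 0) (fun _ => 0) (fun _ => True) X) (fun p hp => by
        rw [mem_Tup kd_prime] at hp
        rw [← image_TW (fun p hp => hp)]
        refine mem_image_of_mem _ ?_
        rw [mem_TW fun p hp => hp]
        exact ⟨⟨fun i => ⟨kd_prime _ _ (hp.1 i), rfl⟩, hp.2.1, hp.2.2⟩, trivial⟩)
    have h3 : (((Tup (Kd A r) X).card : ℕ) : ℝ) ≤
        ((Fintype.card (Ix r) ^ Fintype.card (Ix r) : ℕ) : ℝ) *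
        ((FW (ι := Ix r) Nat.Prime (fun _ => 0) (fun _ => 0) (fun _ => True) X).card : ℝ) := by
      rw [← Nat.cast_mul]
      exact_mod_cast h2
    have h4 : ((FX A r X).card : ℝ) ≤ (((Tup (Kd A r) X).card : ℕ) : ℝ) := by
      rw [hcnt X]
      have h5 : (1 : ℝ) ≤ ((∏ i, (r i).factorial : ℕ) : ℝ) := by
        rw [Nat.one_le_cast]
        exact Nat.succ_le_of_lt (prod_pos fun i _ => Nat.factorial_pos _)
      nlinarith [Nat.cast_nonneg (α := ℝ) (FX A r X).card]
    refine h4.trans (h3.trans ?_)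
    rw [mul_assoc]
    exact mul_le_mul_of_nonneg_left h1 hn.le

/-- the size of the family -/
theorem V_size (hD : Rich A) :
    ∃ (c C : ℝ) (X₀ : ℕ), 0 < c ∧ 0 < C ∧ ∀ X : ℕ, X₀ ≤ X →
      c * (X * Real.log (Real.log X) ^ ((∑ i, r i) + 1) / Real.log X) ≤ ((FX A r X).card : ℝ) ∧
      ((FX A r X).card : ℝ) ≤ C * (X * Real.log (Real.log X) ^ ((∑ i, r i) + 1) / Real.log X) :=
  @V_size' t r A (LinearOrder.lift' (Fintype.equivFin (Ix r)) (Fintype.equivFin (Ix r)).injective) hD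

end Pool.Agent.W2helper41.B
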