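import Pool.Agent.W2helper41.Z.Law

/-!
Tuples of primes: the law for an arbitrary condition on the quadratic residue symbols and on labels.
(The sum over the boxes is adapted from `Pool.Agent.V11291.FK.Tup`.)
-/

set_option autoImplicit false
set_option linter.unusedSectionVars false
set_option linter.unusedVariables false

open scoped Classical

namespace Pool.Agent.W2helper41.B

open Finset Filter Topology
open Pool.Agent.V11291.FK
open Pool.Agent.Y703.CX (sm la jj XX)
open Pool.Agent.Y703.CQ (S_BIL S_EQ HB prs nr)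
open Pool.Agent.Y703.CQ.K302 (le_XX prs_card root12)
open Pool.Agent.Y657.CQ (HB_sub)

variable {ι : Type} [Fintype ι] [LinearOrder ι]

/-- the count in a box for a condition on the symbols and the labels -/
theorem boxQ (hEQ : S_EQ) (f : ℕ → ZMod 2) (J1 : Finset ι)
    (Q : (ι → ZMod 2) → (prs J1 → ZMod 2) → Prop) (α : ℝ)
    (hQ : ∀ β, ((univ.filter (Q β)).card : ℝ) / 2 ^ (prs J1).card = α)
    (C : ι → Finset ℕ) (X : ι → ℕ) (κ : ℝ) (hκ : 0 ≤ κ)
    (hCX : ∀ i, (C i).card ≤ X i) (hHB : HB J1 C X κ) :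
    |(((Fintype.piFinset C).filter fun p => Q (fun i => f (p i))
        fun e => nr (p e.1.1) (p e.1.2)).card : ℝ) - α * ((Fintype.piFinset C).card : ℝ)| ≤
      2 ^ (Fintype.card ι + (prs J1).card) * (κ * ∏ j, (X j : ℝ)) := by
  set R : ℝ := 2 ^ (prs J1).card * (κ * ∏ j, (X j : ℝ)) with hR
  -- the part with given labels
  have h1 : ∀ β : ι → ZMod 2,
      |(((Fintype.piFinset C).filter fun p => (fun i => f (p i)) = β ∧
          Q (fun i => f (p i)) fun e => nr (p e.1.1) (p e.1.2)).card : ℝ) -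
        α * (((Fintype.piFinset C).filter fun p => (fun i => f (p i)) = β).card : ℝ)| ≤
      R := by
    intro β
    set C' : ι → Finset ℕ := fun i => (C i).filter fun q => f q = β i with hC'
    have hpi : (Fintype.piFinset C).filter (fun p => (fun i => f (p i)) = β) =
        Fintype.piFinset C' := by
      ext p
      simp only [Finset.mem_filter, Fintype.mem_piFinset, hC']
      constructor
      · rintro ⟨h2, h3⟩ i
        exact ⟨h2 i, congrFun h3 i⟩
      · intro h2
        exact ⟨fun i => (h2 i).1, funext fun i => (h2 i).2⟩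
    have h3 := hEQ ι J1 C' X κ hκ
      (fun i => (Finset.card_le_card (Finset.filter_subset _ _)).trans (hCX i))
      (HB_sub hHB fun i q => f q = β i) (Q β)
    have h4 : ((Fintype.piFinset C).filter fun p => (fun i => f (p i)) = β ∧
        Q (fun i => f (p i)) fun e => nr (p e.1.1) (p e.1.2)) = ((Fintype.piFinset C').filter fun p =>
          Q β fun e => nr (p e.1.1) (p e.1.2)) := by
      rw [← hpi, Finset.filter_filter]
      refine Finset.filter_congr fun p hp => ?_
      refine and_congr_right fun hl => ?_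
      rw [hl]
    have h5 : (((Fintype.piFinset C').card : ℕ) : ℝ) = ∏ j, ((C' j).card : ℝ) := by
      rw [Fintype.card_piFinset]
      push_cast
      rfl
    rw [h4, hpi, h5, ← hQ β]
    exact h3
  have hfib : ∀ T : (ι → ℕ) → Prop,
      (((Fintype.piFinset C).filter fun p => T p).card : ℝ) =
      ∑ β : ι → ZMod 2, (((Fintype.piFinset C).filter fun p =>
        (fun i => f (p i)) = β ∧ T p).card : ℝ) := by
    intro T
    rw [Finset.card_eq_sum_card_fiberwise (f := fun (p : ι → ℕ) (i : ι) => f (p i))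
      (t := univ) (fun p _ => Finset.mem_coe.2 (Finset.mem_univ _))]
    push_cast
    refine Finset.sum_congr rfl fun β hβ => ?_
    congr 2
    ext p
    simp only [Finset.mem_filter]
    tauto
  have hf1 := hfib fun p => Q (fun i => f (p i)) fun e => nr (p e.1.1) (p e.1.2)
  have hf2 := hfib fun _ => True
  simp only [and_true, Finset.filter_true] at hf2
  rw [hf1, hf2, Finset.mul_sum, ← Finset.sum_sub_distrib]
  refine (Finset.abs_sum_le_sum_abs _ _).trans ?_
  refine (Finset.sum_le_sum fun β _ => h1 β).trans ?_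
  rw [Finset.sum_const, nsmul_eq_mul, Finset.card_univ, Fintype.card_fun, ZMod.card, pow_add,
    mul_assoc, hR]
  push_cast
  exact le_rfl

/-- **The sum over the boxes.** -/
theorem sumQ (hEQ : S_EQ) (hB : S_BIL) (f : ℕ → ZMod 2) (J1 : Finset ι)
    (Q : (ι → ZMod 2) → (prs J1 → ZMod 2) → Prop) (α : ℝ)
    (hQ : ∀ β, ((univ.filter (Q β)).card : ℝ) / 2 ^ (prs J1).card = α)
    (P : ι → ℕ → Prop) (hP : ∀ i p, P i p → p.Prime ∧ p ≠ 2 ∧ (i ∈ J1 → p % 8 = 1)) :
    BoxH (Tup P) (fun p => Q (fun i => f (p i)) fun e => nr (p e.1.1) (p e.1.2)) α := by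
  obtain ⟨C, hC, hB⟩ := hB
  refine ⟨2 ^ (Fintype.card ι + Fintype.card ι ^ 2), C, by positivity, hC, ?_⟩
  intro X z H N κ hH hz hκ hκz hN
  set G : (ι → ℕ) → Prop := fun p => Q (fun i => f (p i)) fun e => nr (p e.1.1) (p e.1.2) with hG
  have hPp : ∀ i p, P i p → p.Prime := fun i p h => (hP i p h).1
  have hz0 : (0 : ℝ) < z := by exact_mod_cast hz
  -- the value in a box
  set B : Finset (ι → ℕ) := Fintype.piFinset fun _ : ι => range N with hBd
  have hmem : ∀ p ∈ Tup P X, (fun i => jj H (p i)) ∈ B := by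
    intro p hp
    rw [mem_Tup hPp] at hp
    rw [hBd, Fintype.mem_piFinset]
    intro i
    rw [mem_range]
    have hp0 := (hPp i _ (hp.1 i)).pos
    have hqX : p i ≤ X := by
      refine le_trans ?_ hp.2.2
      exact Nat.le_of_dvd (Finset.prod_pos fun j _ => (hPp j _ (hp.1 j)).pos)
        (Finset.dvd_prod_of_mem _ (mem_univ i))
    have h3 : ((jj H (p i) : ℕ) : ℝ) < N := by
      refine lt_of_le_of_lt (Nat.floor_le (mul_nonneg (Nat.cast_nonneg _)
        (Real.log_nonneg (by exact_mod_cast hp0)))) ?_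
      refine lt_of_le_of_lt ?_ hN
      refine mul_le_mul_of_nonneg_left ?_ (Nat.cast_nonneg _)
      exact Real.log_le_log (by exact_mod_cast hp0) (by exact_mod_cast hqX)
    exact_mod_cast h3
  have hfib : ∀ T : (ι → ℕ) → Prop,
      (((Tup P X).filter fun p => ¬ Exc X z H p ∧ T p).card : ℝ) =
      ∑ b ∈ B, ((((Tup P X).filter fun p => ¬ Exc X z H p ∧
        (fun i => jj H (p i)) = b).filter T).card : ℝ) := by
    intro T
    rw [Finset.card_eq_sum_card_fiberwise (f := fun (p : ι → ℕ) (i : ι) => jj H (p i))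
      (t := B) (fun p hp => by
        rw [mem_coe, mem_filter] at hp
        exact mem_coe.2 (hmem p hp.1))]
    push_cast
    refine Finset.sum_congr rfl fun b _ => ?_
    congr 2
    ext p
    simp only [mem_filter]
    tauto
  have hf1 := hfib G
  have hf2 := hfib fun _ => True
  simp only [and_true, Finset.filter_true] at hf2
  rw [hf1, hf2, Finset.mul_sum, ← Finset.sum_sub_distrib]
  refine (Finset.abs_sum_le_sum_abs _ _).trans ?_
  have hbox : ∀ b ∈ B, |((((Tup P X).filter fun p => ¬ Exc X z H p ∧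
        (fun i => jj H (p i)) = b).filter G).card : ℝ) -
      α * (((Tup P X).filter fun p => ¬ Exc X z H p ∧
        (fun i => jj H (p i)) = b).card : ℝ)| ≤
      2 ^ (Fintype.card ι + Fintype.card ι ^ 2) * (κ * X) := by
    intro b _
    by_cases hb : Function.Injective b ∧ ∏ i, XX H (b i) ≤ X
    · rw [fib_eq hPp hH hb.1 hb.2]
      have hmb : ∀ i, ∀ p ∈ bx P z H b i, P i p ∧ jj H p = b i ∧ z < p ∧ p ≤ XX H (b i) := by
        intro i p hp
        unfold bx at hp
        rw [mem_filter, mem_Icc] at hp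
        exact ⟨hp.2.1, hp.2.2.1, hp.2.2.2, hp.1.2⟩
      have hdis : ∀ i l, i ≠ l → Disjoint (bx P z H b i) (bx P z H b l) := by
        intro i l hil
        rw [Finset.disjoint_left]
        intro p hp hp'
        exact hil (hb.1 ((hmb i p hp).2.1.symm.trans (hmb l p hp').2.1))
      have h1 := boxQ hEQ f J1 Q α hQ (bx P z H b) (fun i => XX H (b i)) κ hκ
        (fun i => by
          refine (Finset.card_filter_le _ _).trans ?_
          rw [Nat.card_Icc]
          omega)
        (by
          intro i l hil hi c d hc hd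
          have hk0 : (0 : ℝ) ≤ κ * ((XX H (b i) : ℝ) * (XX H (b l) : ℝ)) := by positivity
          rcases (bx P z H b i).eq_empty_or_nonempty with he | ⟨p₀, hp₀⟩
          · rw [he, Finset.sum_empty, norm_zero]
            exact hk0
          rcases (bx P z H b l).eq_empty_or_nonempty with he | ⟨q₀, hq₀⟩
          · rw [he]
            simp only [Finset.sum_empty, Finset.sum_const_zero, norm_zero]
            exact hk0
          have hzi : z ≤ XX H (b i) := by
            have := hmb i p₀ hp₀
            omega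
          have hzl : z ≤ XX H (b l) := by
            have := hmb l q₀ hq₀
            omega
          have h3 := hB (bx P z H b i) (bx P z H b l) (XX H (b i)) (XX H (b l)) z c d
            (fun p hp => by
              have h4 := hmb i p hp
              have h5 := hP i p h4.1
              exact ⟨h5.1, h5.2.2 hi, h4.2.2.2⟩)
            (fun p hp => by
              have h4 := hmb l p hp
              have h5 := hP l p h4.1
              exact ⟨h5.1, h5.2.1, h4.2.2.2⟩)
            (hdis i l hil) hz hzi hzl hc hd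
          exact root12 (norm_nonneg _) hκ (Nat.cast_nonneg _) (Nat.cast_nonneg _) hz0 h3 hκz)
      refine h1.trans ?_
      have h2 : ∏ j, ((XX H (b j) : ℕ) : ℝ) ≤ X := by exact_mod_cast hb.2
      have h3 : (prs J1).card ≤ Fintype.card ι ^ 2 := by
        rw [pow_two]
        exact prs_card J1
      have h4 : κ * ∏ j, ((XX H (b j) : ℕ) : ℝ) ≤ κ * X := mul_le_mul_of_nonneg_left h2 hκ
      have h5 : (0 : ℝ) ≤ κ * ∏ j, ((XX H (b j) : ℕ) : ℝ) :=
        mul_nonneg hκ (Finset.prod_nonneg fun j _ => by positivity)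
      refine mul_le_mul ?_ h4 h5 (by positivity)
      exact pow_le_pow_right₀ (by norm_num) (by omega)
    · rw [fib_empty hb]
      simp only [Finset.filter_empty, Finset.card_empty, Nat.cast_zero, mul_zero, sub_zero, abs_zero]
      positivity
  refine (Finset.sum_le_sum hbox).trans ?_
  rw [Finset.sum_const, nsmul_eq_mul, hBd, Fintype.card_piFinset]
  simp only [Finset.card_range, Finset.prod_const, Finset.card_univ]
  push_cast
  exact le_rfl

/-- the exceptional tuples -/
theorem excQ {P : ι → ℕ → Prop} (hP : ∀ i p, P i p → p.Prime) {j : ℕ}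
    (hj : Fintype.card ι = j + 1) : ExcH (Tup P) j := by
  refine exc_abs hj Z.PS (fun X p hp => ?_)
    (fun X z H hX hH => Z.cut_count hH)
    (fun X z H hX hH => Z.coll_count hH)
  rw [mem_Tup hP] at hp
  obtain ⟨h3, h4, h5⟩ := hp
  refine ⟨fun i => hP _ _ (h3 i), h4, h5, ?_⟩
  rw [Z.mem_PS]
  refine ⟨fun q hq => ?_, ?_⟩
  · rw [mem_image] at hq
    obtain ⟨i, -, rfl⟩ := hq
    exact hP _ _ (h3 i)
  · rw [Finset.prod_image fun a _ b _ h => h4 h]
    exact h5

/-- **the law for the tuples** -/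
theorem lawQ (f : ℕ → ZMod 2) (J1 : Finset ι)
    (Q : (ι → ZMod 2) → (prs J1 → ZMod 2) → Prop) {α : ℝ} (h0 : 0 ≤ α) (h1 : α ≤ 1)
    (hQ : ∀ β, ((univ.filter (Q β)).card : ℝ) / 2 ^ (prs J1).card = α)
    {P : ι → ℕ → Prop} (hP : ∀ i p, P i p → p.Prime ∧ p ≠ 2 ∧ (i ∈ J1 → p % 8 = 1)) {j : ℕ}
    (hj : Fintype.card ι = j + 2) (i₀ : ι) (hD : ∀ i, Dn (P i)) :
    Tendsto (fun X : ℕ => (((Tup P X).filter fun p => Q (fun i => f (p i))
        fun e => nr (p e.1.1) (p e.1.2)).card : ℝ) / ((Tup P X).card : ℝ)) atTop (𝓝 α) :=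
  law_abs hj h0 h1 (sumQ Pool.Agent.Y356.CQ.t_EQ Pool.Agent.Y710.CQ.t_BIL f J1 Q α hQ P hP)
    (excQ (fun i p h => (hP i p h).1) (by omega))
    (low (fun i p h => (hP i p h).1) hD i₀)

theorem card_filter_nat {T : Type} [Fintype T] (P : T → Prop) [DecidablePred P] :
    (univ.filter P).card = Nat.card {x // P x} := by
  rw [Nat.card_eq_fintype_card, Fintype.card_subtype]

/-- the law for the tuples, another form of the hypothesis -/
theorem lawN (f : ℕ → ZMod 2) (J1 : Finset ι)
    (Q : (ι → ZMod 2) → (prs J1 → ZMod 2) → Prop) {α : ℝ} (h0 : 0 ≤ α) (h1 : α ≤ 1)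
    (hQ : ∀ β, ((Nat.card {x // Q β x} : ℕ) : ℝ) / 2 ^ (prs J1).card = α)
    {P : ι → ℕ → Prop} (hP : ∀ i p, P i p → p.Prime ∧ p ≠ 2 ∧ (i ∈ J1 → p % 8 = 1)) {j : ℕ}
    (hj : Fintype.card ι = j + 2) (i₀ : ι) (hD : ∀ i, Dn (P i)) :
    Tendsto (fun X : ℕ => (((Tup P X).filter fun p => Q (fun i => f (p i))
        fun e => nr (p e.1.1) (p e.1.2)).card : ℝ) / ((Tup P X).card : ℝ)) atTop (𝓝 α) :=
  lawQ f J1 Q h0 h1 (fun β => by rw [card_filter_nat]; exact hQ β) hP hj i₀ hD

end Pool.Agent.W2helper41.B
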